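import Pool.Agent.H66.IQ.TD
import Pool.Agent.H10.IPF.BLG

/-!
# Board iq_modules (MP_0f8dca_lc), row BLA: a function does not see a block if it sees neither a copy
nor the correction string
-/

set_option autoImplicit false

namespace Pool.Agent.H23.IQ

open Finset Pool.Agent.H6.NB Pool.Agent.H70.EH Pool.Agent.H78.XQ Pool.Agent.H66.IQ
open Pool.Agent.H10.IPF (blg_one blg_inner blg_mn_abs)

theorem pf_BLA (hCPU : Pool.Agent.H66.IP.T_CPU) (hSYX : Pool.Agent.H66.IP.T_SYX)
    (hWEX : Pool.Agent.H66.IP.T_WEX) (hMUV : Pool.Agent.H70.EH.T_MUV) : T_BLA := by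
  classical
  intro r l q R n hSz b F e₁ e₂ hF01 he₁ he₂ hF1 hF2
  have hcard : Fintype.card (Fin n → Bool) = 2 ^ n := by simp
  have hmv0 : ∀ (b : Bool) (P : (Fin (2 * l) → Bool) → VV q → Bool), 0 ≤ ∏ u, mv b q (P u) :=
    fun b P => Finset.prod_nonneg fun u _ => (hMUV b q).1 _
  set Fm : ((Fin (2 * l) → Bool) → VV q → Bool) → ℝ := fun P => mn fun h => F (P, h) with hFm
  have hFm01 : ∀ P, 0 ≤ Fm P ∧ Fm P ≤ 1 := by
    intro P
    have hc : (0 : ℝ) < 2 ^ Fintype.card (Fin n → Bool) := by positivity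
    simp only [hFm, mn]
    refine ⟨div_nonneg (Finset.sum_nonneg fun h _ => (hF01 _).1) hc.le, ?_⟩
    rw [div_le_one hc]
    refine (Finset.sum_le_sum fun h _ => (hF01 (P, h)).2).trans ?_
    rw [Finset.sum_const, Finset.card_univ, nsmul_eq_mul, mul_one]
    have : Fintype.card ((Fin n → Bool) → Bool) = 2 ^ Fintype.card (Fin n → Bool) := by simp
    rw [this]
    push_cast
    exact le_rfl
  -- step one
  have hinner : ∀ P, |∑ h, mB q l R n b (P, h) * F (P, h) - (∏ u, mv b q (P u)) * Fm P| ≤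
      (∏ u, mv b q (P u)) * (if SayX q l b P then 0 else 1) + (∏ u, mv b q (P u)) * e₂ := by
    intro P
    by_cases hS : SayX q l b P
    · obtain ⟨W, hW1, hW2, hW3⟩ := hWEX r l q R n hSz b P hS
      rw [blg_inner hS hW1 (fun h => F (P, h)), if_pos hS, mul_zero, zero_add, ← mul_sub, abs_mul,
        abs_of_nonneg (hmv0 b P)]
      exact mul_le_mul_of_nonneg_left (hF2 P W hW3) (hmv0 b P)
    · have h1 : ∑ h, mB q l R n b (P, h) * F (P, h) = 0 := by
        refine Finset.sum_eq_zero fun h _ => ?_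
        unfold mB
        rw [if_neg (fun h2 => hS h2.1), zero_mul]
      rw [h1, if_neg hS, zero_sub, abs_neg, mul_one, abs_of_nonneg
        (mul_nonneg (hmv0 b P) (hFm01 P).1)]
      have h2 : (∏ u, mv b q (P u)) * Fm P ≤ (∏ u, mv b q (P u)) * 1 :=
        mul_le_mul_of_nonneg_left (hFm01 P).2 (hmv0 b P)
      have h3 := mul_nonneg (hmv0 b P) he₂
      linarith
  have hstep1 : |∑ c, mB q l R n b c * F c - ∑ P, (∏ u, mv b q (P u)) * Fm P| ≤
      1 / 2 ^ l + e₂ := by
    rw [Fintype.sum_prod_type, ← Finset.sum_sub_distrib]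
    refine (Finset.abs_sum_le_sum_abs _ _).trans ?_
    refine (Finset.sum_le_sum fun P _ => hinner P).trans ?_
    rw [Finset.sum_add_distrib, ← Finset.sum_mul, blg_one hMUV, one_mul]
    have := hSYX r l q R n hSz b
    linarith
  -- step two
  have hstep2 : ∑ c, m0 q l n c * F c = ∑ P, (∏ u, mv false q (P u)) * Fm P := by
    rw [Fintype.sum_prod_type]
    refine Finset.sum_congr rfl fun P _ => ?_
    simp only [hFm, mn, m0]
    rw [hcard, mul_div_assoc', Finset.mul_sum, Finset.sum_div]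
    refine Finset.sum_congr rfl fun h _ => ?_
    ring
  -- step three
  have hstep3 : |∑ P, (∏ u, mv b q (P u)) * Fm P - ∑ P, (∏ u, mv false q (P u)) * Fm P| ≤
      Fintype.card (Fin (2 * l) → Bool) * e₁ := by
    refine hCPU (Fin (2 * l) → Bool) (VV q → Bool) (mv b q) (mv false q) Fm _ (hMUV b q).1
      (hMUV false q).1 (hMUV b q).2.1 (hMUV false q).2.1 fun P u => ?_
    refine blg_mn_abs (mv b q) (mv false q) (fun p h => F (Function.update P u p, h)) _
      fun h => ?_
    rcases b with _ | _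
    · rw [sub_self, abs_zero]
      exact he₁
    · exact hF1 P u h
  -- the end
  have hcU : (Fintype.card (Fin (2 * l) → Bool) : ℝ) = 2 ^ (2 * l) := by
    have : Fintype.card (Fin (2 * l) → Bool) = 2 ^ (2 * l) := by simp
    rw [this]
    push_cast
    rfl
  rw [hcU] at hstep3
  rw [hstep2]
  have h7 := abs_sub_le (∑ c, mB q l R n b c * F c) (∑ P, (∏ u, mv b q (P u)) * Fm P)
    (∑ P, (∏ u, mv false q (P u)) * Fm P)
  linarith

end Pool.Agent.H23.IQ
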